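import Pool.Agent.helper95.FJ.SpecC

/-!
# Row fj:GPT: the geometric cells
-/

set_option autoImplicit false

open Finset

noncomputable section

namespace Pool.Agent.FJ

open Pool.Agent.FI

theorem GPT_nn (x K i : ℕ) : 0 ≤ (x : ℝ) * (2 : ℝ) ^ ((i : ℝ) / K) :=
  mul_nonneg (Nat.cast_nonneg _) (Real.rpow_nonneg (by norm_num) _)

theorem GPT_mono (x K i j : ℕ) (h : i ≤ j) :
    (x : ℝ) * (2 : ℝ) ^ ((i : ℝ) / K) ≤ (x : ℝ) * (2 : ℝ) ^ ((j : ℝ) / K) := by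
  have h1 : (i : ℝ) ≤ j := by exact_mod_cast h
  refine mul_le_mul_of_nonneg_left ?_ (Nat.cast_nonneg _)
  exact Real.rpow_le_rpow_of_exponent_le (by norm_num)
    (div_le_div_of_nonneg_right h1 (Nat.cast_nonneg _))

theorem GPT_cast (x K i : ℕ) : ((gp x K i : ℕ) : ℤ) = ⌊(x : ℝ) * (2 : ℝ) ^ ((i : ℝ) / K)⌋ := by
  unfold gp
  exact Int.natCast_floor_eq_floor (GPT_nn x K i)

theorem GPT_lt (x K i : ℕ) (l : ℤ) :
    ((gp x K i : ℕ) : ℤ) < l ↔ (x : ℝ) * (2 : ℝ) ^ ((i : ℝ) / K) < l := by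
  rw [GPT_cast, Int.floor_lt]

theorem GPT_le (x K i : ℕ) (l : ℤ) :
    l ≤ ((gp x K i : ℕ) : ℤ) ↔ (l : ℝ) ≤ (x : ℝ) * (2 : ℝ) ^ ((i : ℝ) / K) := by
  rw [GPT_cast, Int.le_floor]

theorem GPT : GPT_stmt := by
  intro x K hx hK
  have hK0 : (0 : ℝ) < K := by exact_mod_cast hK
  have hx0 : (0 : ℝ) < x := by exact_mod_cast hx
  have g0 : gp x K 0 = x := by
    unfold gp
    rw [Nat.cast_zero, zero_div, Real.rpow_zero, mul_one, Nat.floor_natCast]
  have gK : gp x K K = 2 * x := by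
    unfold gp
    rw [div_self hK0.ne', Real.rpow_one]
    have : (x : ℝ) * 2 = ((2 * x : ℕ) : ℝ) := by push_cast; ring
    rw [this, Nat.floor_natCast]
  have gm : ∀ i j : ℕ, i ≤ j → gp x K i ≤ gp x K j := by
    intro i j h
    unfold gp
    exact Nat.floor_le_floor (GPT_mono x K i j h)
  have mc : ∀ (i : ℕ) (l : ℤ), l ∈ cl x K i ↔
      ((gp x K i : ℕ) : ℤ) < l ∧ l ≤ ((gp x K (i + 1) : ℕ) : ℤ) := by
    intro i l
    unfold cl
    rw [Finset.mem_Ioc]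
  refine ⟨g0, gK, gm, ?_, ?_, ?_, ?_, ?_⟩
  · intro i l
    rw [mc, GPT_lt, GPT_le]
    push_cast
    rfl
  · intro l hl1 hl2
    have hex : ∃ i : ℕ, l ≤ ((gp x K i : ℕ) : ℤ) := ⟨K, by rw [gK]; push_cast; exact hl2⟩
    classical
    obtain ⟨hf, hmin⟩ : l ≤ ((gp x K (Nat.find hex) : ℕ) : ℤ) ∧
        ∀ m, m < Nat.find hex → ¬ l ≤ ((gp x K m : ℕ) : ℤ) :=
      ⟨Nat.find_spec hex, fun m hm => Nat.find_min hex hm⟩
    have hle : Nat.find hex ≤ K := Nat.find_min' hex (by rw [gK]; push_cast; exact hl2)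
    generalize Nat.find hex = i0 at hf hmin hle
    cases i0 with
    | zero =>
      exfalso
      rw [g0] at hf
      omega
    | succ k =>
      refine ⟨k, by omega, (mc k l).2 ⟨?_, hf⟩⟩
      exact not_le.1 (hmin k (by omega))
  · intro i i' l h1 h2
    rw [mc] at h1 h2
    rcases lt_trichotomy i i' with h | h | h
    · exfalso
      have := gm (i + 1) i' (by omega)
      have h3 : ((gp x K (i + 1) : ℕ) : ℤ) ≤ ((gp x K i' : ℕ) : ℤ) := by exact_mod_cast this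
      omega
    · exact h
    · exfalso
      have := gm (i' + 1) i (by omega)
      have h3 : ((gp x K (i' + 1) : ℕ) : ℤ) ≤ ((gp x K i : ℕ) : ℤ) := by exact_mod_cast this
      omega
  · intro i hi l h1
    rw [mc] at h1
    have h2 := gm 0 i (by omega)
    have h3 := gm (i + 1) K (by omega)
    rw [g0] at h2
    rw [gK] at h3
    constructor
    · omega
    · omega
  · intro i hi
    have hi' : (i : ℝ) ≤ K := by exact_mod_cast hi.le
    have hcard : (#(cl x K i) : ℝ) = (gp x K (i + 1) : ℝ) - (gp x K i : ℝ) := by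
      unfold cl
      rw [Int.card_Ioc]
      have h1 := gm i (i + 1) (by omega)
      have h2 : ((gp x K (i + 1) : ℤ) - (gp x K i : ℤ)).toNat = gp x K (i + 1) - gp x K i := by
        omega
      rw [h2, Nat.cast_sub h1]
    rw [hcard]
    have u1 : (gp x K (i + 1) : ℝ) ≤ (x : ℝ) * (2 : ℝ) ^ (((i + 1 : ℕ) : ℝ) / K) := by
      unfold gp
      exact Nat.floor_le (GPT_nn x K (i + 1))
    have u2 : (x : ℝ) * (2 : ℝ) ^ ((i : ℝ) / K) < (gp x K i : ℝ) + 1 := by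
      unfold gp
      exact Nat.lt_floor_add_one _
    have e1 : (2 : ℝ) ^ (((i + 1 : ℕ) : ℝ) / K) =
        (2 : ℝ) ^ ((i : ℝ) / K) * (2 : ℝ) ^ ((1 : ℝ) / K) := by
      rw [← Real.rpow_add (by norm_num)]
      congr 1
      push_cast
      ring
    have u3 : (2 : ℝ) ^ ((1 : ℝ) / K) ≤ 1 + 1 / K := by
      have h1K : (1 : ℝ) / K ≤ 1 := by
        rw [div_le_one hK0]
        exact_mod_cast hK
      have := rpow_one_add_le_one_add_mul_self (s := 1) (p := 1 / (K : ℝ)) (by norm_num)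
        (by positivity) h1K
      rw [mul_one] at this
      have e2 : (1 + 1 : ℝ) = 2 := by norm_num
      rwa [e2] at this
    have u4 : (2 : ℝ) ^ ((i : ℝ) / K) ≤ 2 := by
      calc (2 : ℝ) ^ ((i : ℝ) / K) ≤ (2 : ℝ) ^ (1 : ℝ) :=
            Real.rpow_le_rpow_of_exponent_le (by norm_num) ((div_le_one hK0).2 hi')
        _ = 2 := Real.rpow_one _
    have u5 : 0 ≤ (2 : ℝ) ^ ((i : ℝ) / K) := Real.rpow_nonneg (by norm_num) _
    rw [e1] at u1
    have u6 : (x : ℝ) * ((2 : ℝ) ^ ((i : ℝ) / K) * (2 : ℝ) ^ ((1 : ℝ) / K)) ≤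
        (x : ℝ) * (2 : ℝ) ^ ((i : ℝ) / K) + 2 * x / K := by
      calc (x : ℝ) * ((2 : ℝ) ^ ((i : ℝ) / K) * (2 : ℝ) ^ ((1 : ℝ) / K))
          ≤ (x : ℝ) * ((2 : ℝ) ^ ((i : ℝ) / K) * (1 + 1 / K)) :=
            mul_le_mul_of_nonneg_left (mul_le_mul_of_nonneg_left u3 u5) hx0.le
        _ = (x : ℝ) * (2 : ℝ) ^ ((i : ℝ) / K) + (x / K) * (2 : ℝ) ^ ((i : ℝ) / K) := by ring
        _ ≤ (x : ℝ) * (2 : ℝ) ^ ((i : ℝ) / K) + (x / K) * 2 :=
            add_le_add le_rfl (mul_le_mul_of_nonneg_left u4 (by positivity))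
        _ = (x : ℝ) * (2 : ℝ) ^ ((i : ℝ) / K) + 2 * x / K := by ring
    linarith

end Pool.Agent.FJ
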